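import Pool.Agent.Helper60.FF.DefsB

/-!
# DER: the derivation `D`
-/

set_option autoImplicit false

namespace Pool.Agent.Helper60.FF

open Polynomial

section

variable {p : ℕ} [hp : Fact p.Prime]

theorem der_add_le {x y : ℂ_[p]} {r : ℝ} (hx : ‖x‖ ≤ r) (hy : ‖y‖ ≤ r) : ‖x + y‖ ≤ r :=
  (PadicComplex.isNonarchimedean p x y).trans (max_le hx hy)

theorem der_sub_le {x y : ℂ_[p]} {r : ℝ} (hx : ‖x‖ ≤ r) (hy : ‖y‖ ≤ r) : ‖x - y‖ ≤ r := by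
  rw [sub_eq_add_neg]
  exact der_add_le hx (by rwa [norm_neg])

theorem der_pow_le {x : ℂ_[p]} (hx : ‖x‖ ≤ 1) (n : ℕ) : ‖x ^ n‖ ≤ 1 := by
  rw [norm_pow]
  exact pow_le_one₀ (norm_nonneg _) hx

theorem der_frob {x y : ℂ_[p]} (hx : ‖x‖ ≤ 1) (hy : ‖y‖ ≤ 1) (f : ℕ) :
    ‖(x + y) ^ (p ^ f) - x ^ (p ^ f) - y ^ (p ^ f)‖ ≤ ‖(p : ℂ_[p])‖ := by
  obtain ⟨r', hr'⟩ := exists_add_pow_prime_pow_eq hp.out (⟨x, hx⟩ : OO p) (⟨y, hy⟩ : OO p) f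
  obtain ⟨r, hr⟩ : ∃ r : OO p, ((⟨x, hx⟩ : OO p) + ⟨y, hy⟩) ^ (p ^ f) =
      (⟨x, hx⟩ : OO p) ^ (p ^ f) + (⟨y, hy⟩ : OO p) ^ (p ^ f) + (p : OO p) * r :=
    ⟨⟨x, hx⟩ * ⟨y, hy⟩ * r', by rw [hr']; ring⟩
  have h1 := congrArg (Subtype.val : OO p → ℂ_[p]) hr
  have h2 : (x + y) ^ (p ^ f) = x ^ (p ^ f) + y ^ (p ^ f) + (p : ℂ_[p]) * (r : ℂ_[p]) := h1
  rw [h2]
  have h3 : x ^ (p ^ f) + y ^ (p ^ f) + (p : ℂ_[p]) * (r : ℂ_[p]) - x ^ (p ^ f) - y ^ (p ^ f) =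
      (p : ℂ_[p]) * (r : ℂ_[p]) := by ring
  rw [h3, norm_mul]
  exact mul_le_of_le_one_right (norm_nonneg _) r.2

theorem der_pow_sub {x y : ℂ_[p]} (hx : ‖x‖ ≤ 1) (hy : ‖y‖ ≤ 1) (n : ℕ) :
    ‖x ^ n - y ^ n‖ ≤ ‖x - y‖ := by
  obtain ⟨r, hr⟩ := sub_dvd_pow_sub_pow (⟨x, hx⟩ : OO p) (⟨y, hy⟩ : OO p) n
  have h1 := congrArg (Subtype.val : OO p → ℂ_[p]) hr
  have h2 : x ^ n - y ^ n = (x - y) * (r : ℂ_[p]) := h1
  rw [h2, norm_mul]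
  exact mul_le_of_le_one_right (norm_nonneg _) r.2

variable {E : IntermediateField ℚ_[p] ℂ_[p]} {π : ℂ_[p]} {f : ℕ}

theorem der_lt_le (h : LF E π f) {x : ℂ_[p]} (hx : x ∈ E) (hx1 : ‖x‖ < 1) : ‖x‖ ≤ ‖π‖ := by
  by_cases h0 : x = 0
  · rw [h0, norm_zero]; exact norm_nonneg _
  obtain ⟨j, hj⟩ := h.val x hx h0
  rw [hj] at hx1 ⊢
  have hj1 : 0 < j := by
    by_contra hneg
    push Not at hneg
    have : 1 ≤ ‖π‖ ^ j := one_le_zpow_of_nonpos₀ h.pos h.lt.le hneg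
    linarith
  calc ‖π‖ ^ j ≤ ‖π‖ ^ (1 : ℤ) := zpow_le_zpow_right_of_le_one₀ h.pos h.lt.le (by omega)
    _ = ‖π‖ := zpow_one _

theorem der_base (h : LF E π f) {x : ℂ_[p]} (hx : x ∈ E) (hx1 : ‖x‖ ≤ 1) :
    ‖x - x ^ (p ^ f)‖ ≤ ‖π‖ := by
  apply der_lt_le h (sub_mem hx (pow_mem hx _))
  have h1 := der_pow_le hx1 (p ^ f)
  rw [← res_eq_zero (der_sub_le hx1 h1), res_sub hx1 h1, res_pow hx1, h.rs x hx hx1, sub_self]

theorem der_div_le (h : LF E π f) {x : ℂ_[p]} (hx : ‖x‖ ≤ ‖π‖) : ‖x / π‖ ≤ 1 := by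
  rw [norm_div]
  exact div_le_one_of_le₀ hx h.pos.le

theorem der_div_lt (h : LF E π f) {x : ℂ_[p]} (hx : ‖x‖ ≤ ‖π‖ ^ 2) : ‖x / π‖ < 1 := by
  rw [norm_div, div_lt_one h.pos]
  calc ‖x‖ ≤ ‖π‖ ^ 2 := hx
    _ < ‖π‖ := by nlinarith [h.pos, h.lt]

theorem der_res_div (h : LF E π f) {x : ℂ_[p]} (hx : ‖x‖ ≤ ‖π‖ ^ 2) : res (x / π) = 0 := by
  have := der_div_lt h hx
  rwa [res_eq_zero this.le]

end

theorem st_DER : ST_DER := by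
  intro p hp E π f h hpπ
  have hπ0 : π ≠ 0 := norm_pos_iff.1 h.pos
  have hq : 2 ≤ p ^ f := by
    calc 2 ≤ p := hp.out.two_le
      _ = p ^ 1 := (pow_one p).symm
      _ ≤ p ^ f := Nat.pow_le_pow_right hp.out.pos h.fpos
  have hD : ∀ x ∈ E, ‖x‖ ≤ 1 → ‖(x - x ^ (p ^ f)) / π‖ ≤ 1 := fun x hx hx1 =>
    der_div_le h (der_base h hx hx1)
  refine ⟨?_, ?_, ?_, ?_, ?_, ?_, ?_⟩
  · intro x hx hx1
    refine ⟨der_base h hx hx1, ?_⟩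
    rw [mem_Fq]
    exact h.rs _ (div_mem (sub_mem hx (pow_mem hx _)) h.mem) (hD x hx hx1)
  · intro x hx y hy hx1 hy1
    unfold Dv
    have h1 := der_frob hx1 hy1 f
    set B := (x + y) ^ (p ^ f) - x ^ (p ^ f) - y ^ (p ^ f) with hB
    have h2 : (x + y - (x + y) ^ (p ^ f)) / π =
        ((x - x ^ (p ^ f)) / π + (y - y ^ (p ^ f)) / π) - B / π := by
      rw [hB]; field_simp; ring
    have h3 : ‖B‖ ≤ ‖π‖ ^ 2 := h1.trans hpπ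
    rw [h2, res_sub (der_add_le (hD x hx hx1) (hD y hy hy1)) (der_div_lt h h3).le,
      res_add (hD x hx hx1) (hD y hy hy1), der_res_div h h3, sub_zero]
  · intro x hx y hy hx1 hy1
    unfold Dv
    have h2 : (x * y - (x * y) ^ (p ^ f)) / π =
        x * ((y - y ^ (p ^ f)) / π) + y ^ (p ^ f) * ((x - x ^ (p ^ f)) / π) := by
      rw [mul_pow]; field_simp; ring
    have h3 := der_pow_le hy1 (p ^ f)
    have h4 : ‖x * ((y - y ^ (p ^ f)) / π)‖ ≤ 1 := by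
      rw [norm_mul]; exact mul_le_one₀ hx1 (norm_nonneg _) (hD y hy hy1)
    have h5 : ‖y ^ (p ^ f) * ((x - x ^ (p ^ f)) / π)‖ ≤ 1 := by
      rw [norm_mul]; exact mul_le_one₀ h3 (norm_nonneg _) (hD x hx hx1)
    rw [h2, res_add h4 h5, res_mul hx1 (hD y hy hy1), res_mul h3 (hD x hx hx1), res_pow hy1,
      h.rs y hy hy1]
  · unfold Dv
    have h2 : (π - π ^ (p ^ f)) / π = 1 - π ^ (p ^ f - 1) := by
      have : π ^ (p ^ f) = π ^ (p ^ f - 1) * π := by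
        rw [← pow_succ]
        congr 1
        omega
      rw [this]
      field_simp
    have h3 : ‖π ^ (p ^ f - 1)‖ < 1 := by
      rw [norm_pow]
      exact pow_lt_one₀ (norm_nonneg _) h.lt (by omega)
    rw [h2, res_sub (by rw [norm_one]) h3.le, res_one, (res_eq_zero h3.le).2 h3, sub_zero]
  · intro x hx hx2
    unfold Dv
    apply der_res_div h
    have hx1 : ‖x‖ ≤ 1 := hx2.trans (pow_le_one₀ (norm_nonneg _) h.lt.le)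
    apply der_sub_le hx2
    rw [norm_pow]
    calc ‖x‖ ^ (p ^ f) ≤ ‖x‖ ^ 1 := pow_le_pow_of_le_one (norm_nonneg _) hx1 (by omega)
      _ = ‖x‖ := pow_one _
      _ ≤ ‖π‖ ^ 2 := hx2
  · intro x _ hxq
    unfold Dv
    rw [hxq, sub_self, zero_div, res_zero]
  · intro E₁ π₁ f₁ h₁ hdvd hle x hx hx1
    unfold Dv
    apply der_res_div h
    obtain ⟨m, rfl⟩ := hdvd
    have hbase : ‖x - x ^ (p ^ f₁)‖ ≤ ‖π₁‖ := der_base h₁ hx hx1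
    have key : ∀ m : ℕ, ‖x - x ^ (p ^ (f₁ * m))‖ ≤ ‖π₁‖ := by
      intro m
      induction m with
      | zero => simp
      | succ m ih =>
        have h3 : x - x ^ (p ^ (f₁ * (m + 1))) =
            (x - x ^ (p ^ f₁)) + (x ^ (p ^ f₁) - (x ^ (p ^ (f₁ * m))) ^ (p ^ f₁)) := by
          have : x ^ (p ^ (f₁ * (m + 1))) = (x ^ (p ^ (f₁ * m))) ^ (p ^ f₁) := by
            rw [← pow_mul, ← pow_add, mul_add, mul_one]
          rw [this]; ring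
        rw [h3]
        refine der_add_le hbase ?_
        exact (der_pow_sub hx1 (der_pow_le hx1 _) _).trans ih
    exact (key m).trans hle

end Pool.Agent.Helper60.FF
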